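import Mathlib

/-!
# Critical points of a sum of elementary symmetric polynomials in disjoint sets of variables

`F0 = τ + ∑_z (e_(d+1)(y_z) + (-1)^d ∑_l y_(z,l))`, each block `y_z` has `2 d` variables.  At the
points where every `d`-th root of unity occurs exactly twice in every block, the gradient in the
`y` variables vanishes and the Hessian is nonsingular.  This gives `(d!)^(2 #blocks)`
nondegenerate critical points of `τ` on `F0 = 0`.
-/

set_option autoImplicit false
set_option linter.unusedSectionVars false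

namespace Pool.Agent.Helper40.CB

open Finset

/-- Model of a set with `2 d` elements. -/
abbrev JJ (d : ℕ) : Type := Fin 2 × Fin d

section rows

variable {K : Type} [Field K] {J : Type} [Fintype J] [DecidableEq J] {d : ℕ}

/-- A block: the two halves are given by two permutations of the `d`-th roots of unity. -/
noncomputable def yrow (e : J ≃ JJ d) (ζ : K) (σ : Fin 2 → Equiv.Perm (Fin d)) (l : J) : K :=
  ζ ^ ((σ (e l).1 (e l).2 : Fin d) : ℕ)

theorem yrow_pow (e : J ≃ JJ d) {ζ : K} (hζ : IsPrimitiveRoot ζ d)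
    (σ : Fin 2 → Equiv.Perm (Fin d)) (l : J) : yrow e ζ σ l ^ d = 1 := by
  unfold yrow
  rw [← pow_mul, mul_comm, pow_mul, hζ.pow_eq_one, one_pow]

theorem yrow_ne_zero (e : J ≃ JJ d) {ζ : K} (hζ : IsPrimitiveRoot ζ d)
    (σ : Fin 2 → Equiv.Perm (Fin d)) (l : J) : yrow e ζ σ l ≠ 0 := by
  intro h
  have h1 := yrow_pow e hζ σ l
  have hd : d ≠ 0 := by
    rintro rfl
    exact (e l).2.elim0
  rw [h, zero_pow hd] at h1
  exact zero_ne_one h1

theorem yrow_eq_iff (e : J ≃ JJ d) {ζ : K} (hζ : IsPrimitiveRoot ζ d)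
    (σ σ' : Fin 2 → Equiv.Perm (Fin d)) (l l' : J) :
    yrow e ζ σ l = yrow e ζ σ' l' ↔ σ (e l).1 (e l).2 = σ' (e l').1 (e l').2 := by
  constructor
  · intro h
    exact Fin.ext (hζ.pow_inj (σ (e l).1 (e l).2).2 (σ' (e l').1 (e l').2).2 h)
  · intro h
    unfold yrow
    rw [h]

theorem yrow_injective (e : J ≃ JJ d) {ζ : K} (hζ : IsPrimitiveRoot ζ d) :
    Function.Injective (fun σ : Fin 2 → Equiv.Perm (Fin d) => (yrow e ζ σ : J → K)) := by
  intro σ σ' h
  funext a
  refine Equiv.ext fun j => ?_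
  have := (yrow_eq_iff e hζ σ σ' (e.symm (a, j)) (e.symm (a, j))).1 (congrFun h _)
  simpa using this

/-- The other element of the block at which the same root of unity occurs. -/
theorem yrow_partner (e : J ≃ JJ d) {ζ : K} (hζ : IsPrimitiveRoot ζ d)
    (σ : Fin 2 → Equiv.Perm (Fin d)) (l : J) :
    ∃ l' : J, l' ≠ l ∧ yrow e ζ σ l' = yrow e ζ σ l ∧
      ∀ l'' : J, l'' ≠ l → yrow e ζ σ l'' = yrow e ζ σ l → l'' = l' := by
  obtain ⟨⟨h, j⟩, rfl⟩ := e.symm.surjective l
  refine ⟨e.symm (1 - h, (σ (1 - h)).symm (σ h j)), ?_, ?_, ?_⟩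
  · intro hh
    have := congrArg Prod.fst (e.symm.injective hh)
    revert this
    simp only
    fin_cases h <;> decide
  · rw [yrow_eq_iff e hζ]
    simp
  · intro l''
    obtain ⟨⟨h', j'⟩, rfl⟩ := e.symm.surjective l''
    intro hne heq
    rw [yrow_eq_iff e hζ] at heq
    simp only [Equiv.apply_symm_apply] at heq
    have hh : h' ≠ h := by
      rintro rfl
      exact hne (by rw [(σ h').injective heq])
    have hh' : h' = 1 - h := by
      revert hh
      fin_cases h <;> fin_cases h' <;> decide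
    subst hh'
    rw [← heq]
    simp

/-! ### generating functions -/

section gen

open Polynomial

/-- generating function of the elementary symmetric functions -/
noncomputable def gen {J : Type} (S : Finset J) (y : J → K) : K[X] := ∏ k ∈ S, (1 + C (y k) * X)

theorem coeff_gen {J : Type} [DecidableEq J] (S : Finset J) (y : J → K) (m : ℕ) :
    (gen S y).coeff m = ∑ T ∈ powersetCard m S, ∏ k ∈ T, y k := by
  unfold gen
  rw [Finset.prod_one_add, Polynomial.finsetSum_coeff, Finset.powersetCard_eq_filter,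
    Finset.sum_filter]
  refine Finset.sum_congr rfl fun T _ => ?_
  rw [Finset.prod_mul_distrib, Finset.prod_const, ← map_prod C,
    Polynomial.coeff_C_mul_X_pow]
  simp only [eq_comm]

theorem gen_all {ζ : K} (hd : 0 < d) (hζ : IsPrimitiveRoot ζ d) :
    ∏ j : Fin d, (1 + C (ζ ^ (j : ℕ)) * X : K[X]) = 1 - (-X) ^ d := by
  classical
  have hζ' : IsPrimitiveRoot (C ζ : K[X]) d := hζ.map_of_injective Polynomial.C_injective
  have h1 := hζ'.pow_sub_pow_eq_prod_sub_mul (1 : K[X]) (-X) hd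
  rw [one_pow] at h1
  rw [h1, Fin.prod_univ_eq_prod_range (fun j => (1 + C (ζ ^ j) * X : K[X])) d]
  symm
  have h2 : nthRootsFinset d (1 : K[X]) = (range d).image fun j => (C ζ : K[X]) ^ j := by
    symm
    apply Finset.eq_of_subset_of_card_le
    · intro x hx
      rw [mem_image] at hx
      obtain ⟨j, _, rfl⟩ := hx
      rw [mem_nthRootsFinset hd, ← pow_mul, mul_comm, pow_mul, hζ'.pow_eq_one, one_pow]
    · rw [hζ'.card_nthRootsFinset, card_image_of_injOn, card_range]
      intro a ha b hb hab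
      simp only [coe_range, Set.mem_Iio] at ha hb
      exact hζ'.pow_inj ha hb hab
  rw [h2, Finset.prod_image]
  · refine Finset.prod_congr rfl fun j _ => ?_
    rw [C_pow]
    ring
  · intro a ha b hb hab
    simp only [coe_range, Set.mem_Iio] at ha hb
    exact hζ'.pow_inj ha hb hab

theorem gen_univ (e : J ≃ JJ d) {ζ : K} (hd : 0 < d) (hζ : IsPrimitiveRoot ζ d)
    (σ : Fin 2 → Equiv.Perm (Fin d)) : gen univ (yrow e ζ σ) = (1 - (-X) ^ d) ^ 2 := by
  unfold gen
  have h0 : ∏ k : J, (1 + C (yrow e ζ σ k) * X : K[X]) =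
      ∏ p : JJ d, (1 + C (ζ ^ ((σ p.1 p.2 : Fin d) : ℕ)) * X : K[X]) :=
    Equiv.prod_comp e (fun p : JJ d => (1 + C (ζ ^ ((σ p.1 p.2 : Fin d) : ℕ)) * X : K[X]))
  rw [h0, Fintype.prod_prod_type]
  have : ∀ a : Fin 2, ∏ j : Fin d, (1 + C (ζ ^ ((σ a j : Fin d) : ℕ)) * X : K[X]) =
      1 - (-X) ^ d := by
    intro a
    rw [← gen_all hd hζ]
    exact Equiv.prod_comp (σ a) (fun j : Fin d => (1 + C (ζ ^ (j : ℕ)) * X : K[X]))
  simp only [this]
  rw [Finset.prod_const]
  rfl

/-- geometric sum -/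
noncomputable def geo (d : ℕ) (y : K) : K[X] := ∑ j ∈ range d, (C (-y) * X) ^ j

theorem mul_geo {y : K} (hy : y ^ d = 1) :
    (1 + C y * X) * geo d y = 1 - (-X : K[X]) ^ d := by
  have h := mul_neg_geom_sum (C (-y) * X : K[X]) d
  have h1 : (C (-y) * X : K[X]) ^ d = (-X) ^ d := by
    have : (C (-y) * X : K[X]) = C y * (-X) := by
      rw [C_neg]; ring
    rw [this, mul_pow, ← C_pow, hy, C_1, one_mul]
  rw [h1] at h
  rw [← h]
  unfold geo
  rw [C_neg]
  ring

theorem coeff_geo (d : ℕ) (y : K) (m : ℕ) : (geo d y).coeff m = if m < d then (-y) ^ m else 0 := by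
  unfold geo
  rw [Polynomial.finsetSum_coeff]
  simp_rw [mul_pow, ← C_pow, Polynomial.coeff_C_mul_X_pow]
  rw [Finset.sum_ite_eq]
  simp only [mem_range]

theorem lin_ne_zero (y : K) : (1 + C y * X : K[X]) ≠ 0 := by
  intro h
  have := congrArg (fun p : K[X] => p.coeff 0) h
  simp at this

theorem gen_erase (e : J ≃ JJ d) {ζ : K} (hd : 0 < d) (hζ : IsPrimitiveRoot ζ d)
    (σ : Fin 2 → Equiv.Perm (Fin d)) (l : J) :
    gen (univ.erase l) (yrow e ζ σ) = (1 - (-X) ^ d) * geo d (yrow e ζ σ l) := by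
  apply mul_left_cancel₀ (lin_ne_zero (yrow e ζ σ l))
  have h1 : (1 + C (yrow e ζ σ l) * X) * gen (univ.erase l) (yrow e ζ σ) =
      gen univ (yrow e ζ σ) :=
    Finset.mul_prod_erase univ (fun k => (1 + C (yrow e ζ σ k) * X : K[X])) (mem_univ l)
  rw [h1, gen_univ e hd hζ, ← mul_geo (yrow_pow e hζ σ l)]
  ring

theorem gen_erase_erase (e : J ≃ JJ d) {ζ : K} (hd : 0 < d) (hζ : IsPrimitiveRoot ζ d)
    (σ : Fin 2 → Equiv.Perm (Fin d)) {l l' : J} (h : l ≠ l') :
    gen ((univ.erase l).erase l') (yrow e ζ σ) =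
      geo d (yrow e ζ σ l) * geo d (yrow e ζ σ l') := by
  apply mul_left_cancel₀ (lin_ne_zero (yrow e ζ σ l'))
  have h1 : (1 + C (yrow e ζ σ l') * X) * gen ((univ.erase l).erase l') (yrow e ζ σ) =
      gen (univ.erase l) (yrow e ζ σ) :=
    Finset.mul_prod_erase (univ.erase l) (fun k => (1 + C (yrow e ζ σ k) * X : K[X]))
      (mem_erase.2 ⟨h.symm, mem_univ l'⟩)
  rw [h1, gen_erase e hd hζ, ← mul_geo (yrow_pow e hζ σ l')]
  ring

end gen

theorem esymm_erase (e : J ≃ JJ d) (hd : 2 ≤ d) {ζ : K} (hζ : IsPrimitiveRoot ζ d)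
    (σ : Fin 2 → Equiv.Perm (Fin d)) (l : J) :
    ∑ T ∈ powersetCard d (univ.erase l), ∏ k ∈ T, yrow e ζ σ k = (-1) ^ (d + 1) := by
  rw [← coeff_gen, gen_erase e (by omega) hζ, sub_mul, one_mul, Polynomial.coeff_sub, coeff_geo,
    if_neg (lt_irrefl _), neg_pow, mul_assoc]
  have h1 : ((-1 : Polynomial K) ^ d * (Polynomial.X ^ d * geo d (yrow e ζ σ l))).coeff d =
      (-1) ^ d := by
    have : (-1 : Polynomial K) ^ d = Polynomial.C ((-1) ^ d) := by simp
    rw [this, Polynomial.coeff_C_mul, Polynomial.coeff_X_pow_mul', if_pos le_rfl, Nat.sub_self,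
      coeff_geo, if_pos (by omega)]
    simp
  rw [h1]
  ring

theorem coeff_geo_mul (a b : K) (hd : 2 ≤ d) : (geo d a * geo d b).coeff (d - 1) =
    ∑ x ∈ antidiagonal (d - 1), (-a) ^ x.1 * (-b) ^ x.2 := by
  rw [Polynomial.coeff_mul]
  refine Finset.sum_congr rfl fun x hx => ?_
  rw [Finset.HasAntidiagonal.mem_antidiagonal] at hx
  rw [coeff_geo, coeff_geo, if_pos (by omega), if_pos (by omega)]

theorem esymm_erase_erase_eq (e : J ≃ JJ d) (hd : 2 ≤ d) {ζ : K} (hζ : IsPrimitiveRoot ζ d)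
    (σ : Fin 2 → Equiv.Perm (Fin d)) {l l' : J} (h : l ≠ l')
    (hy : yrow e ζ σ l = yrow e ζ σ l') :
    ∑ T ∈ powersetCard (d - 1) ((univ.erase l).erase l'), ∏ k ∈ T, yrow e ζ σ k =
      (-1) ^ (d - 1) * (d : K) * yrow e ζ σ l ^ (d - 1) := by
  rw [← coeff_gen, gen_erase_erase e (by omega) hζ σ h, coeff_geo_mul _ _ hd, ← hy]
  have h2 : ∀ x ∈ antidiagonal (d - 1), (-yrow e ζ σ l) ^ x.1 * (-yrow e ζ σ l) ^ x.2 =
      (-yrow e ζ σ l) ^ (d - 1) := by
    intro x hx
    rw [Finset.HasAntidiagonal.mem_antidiagonal] at hx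
    rw [← pow_add, hx]
  rw [Finset.sum_congr rfl h2, Finset.sum_const, Finset.Nat.card_antidiagonal, nsmul_eq_mul,
    neg_pow, Nat.sub_add_cancel (by omega : 1 ≤ d)]
  ring

theorem esymm_erase_erase_ne (e : J ≃ JJ d) (hd : 2 ≤ d) {ζ : K} (hζ : IsPrimitiveRoot ζ d)
    (σ : Fin 2 → Equiv.Perm (Fin d)) {l l' : J} (h : l ≠ l')
    (hy : yrow e ζ σ l ≠ yrow e ζ σ l') :
    ∑ T ∈ powersetCard (d - 1) ((univ.erase l).erase l'), ∏ k ∈ T, yrow e ζ σ k = 0 := by
  rw [← coeff_gen, gen_erase_erase e (by omega) hζ σ h, coeff_geo_mul _ _ hd]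
  rw [Finset.Nat.sum_antidiagonal_eq_sum_range_succ
    (fun i j => (-yrow e ζ σ l) ^ i * (-yrow e ζ σ l') ^ j) (d - 1)]
  have h3 := (Commute.all (-yrow e ζ σ l) (-yrow e ζ σ l')).geom_sum₂_mul d
  have h4 : -yrow e ζ σ l - -yrow e ζ σ l' ≠ 0 := by
    intro h
    apply hy
    linear_combination -h
  have h5 : (-yrow e ζ σ l) ^ d - (-yrow e ζ σ l') ^ d = 0 := by
    rw [neg_pow, neg_pow (yrow e ζ σ l'), yrow_pow e hζ, yrow_pow e hζ, sub_self]
  rw [h5] at h3
  have h6 := (mul_eq_zero.1 h3).resolve_right h4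
  rw [Nat.succ_eq_add_one, Nat.sub_add_cancel (by omega : 1 ≤ d)]
  exact h6

end rows

/-! ### derivatives of elementary symmetric polynomials -/

section poly

open MvPolynomial

variable {K : Type} [CommRing K] {V J : Type} [DecidableEq J]

/-- `e_k` in the variables `x_(f l)`, `l ∈ U`. -/
noncomputable def esy (K : Type) [CommRing K] {V J : Type} [DecidableEq J] (f : J → V) (k : ℕ)
    (U : Finset J) : MvPolynomial V K :=
  ∑ T ∈ powersetCard k U, ∏ l ∈ T, X (f l)

theorem esy_zero (f : J → V) (U : Finset J) : esy K f 0 U = 1 := by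
  unfold esy
  simp

theorem esy_succ (f : J → V) (k : ℕ) {U : Finset J} {l : J} (hl : l ∈ U) :
    esy K f (k + 1) U = esy K f (k + 1) (U.erase l) + X (f l) * esy K f k (U.erase l) := by
  have h1 : U = insert l (U.erase l) := (Finset.insert_erase hl).symm
  have h2 : l ∉ U.erase l := Finset.notMem_erase l U
  conv_lhs => rw [h1]
  unfold esy
  rw [Finset.powersetCard_succ_insert h2, Finset.sum_union, Finset.sum_image, Finset.mul_sum]
  · congr 1
    refine Finset.sum_congr rfl fun T hT => ?_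
    rw [Finset.prod_insert]
    intro h
    exact h2 ((Finset.mem_powersetCard.1 hT).1 h)
  · intro A hA B hB hAB
    have h3 : l ∉ A := fun h => h2 ((Finset.mem_powersetCard.1 hA).1 h)
    have h4 : l ∉ B := fun h => h2 ((Finset.mem_powersetCard.1 hB).1 h)
    rw [← Finset.erase_insert h3, ← Finset.erase_insert h4, hAB]
  · rw [Finset.disjoint_left]
    intro A hA hA'
    obtain ⟨B, _, rfl⟩ := Finset.mem_image.1 hA'
    exact h2 ((Finset.mem_powersetCard.1 hA).1 (Finset.mem_insert_self _ _))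

theorem pderiv_prod_X (f : J → V) (v : V) (T : Finset J) (h : ∀ l ∈ T, f l ≠ v) :
    pderiv v (∏ l ∈ T, X (f l) : MvPolynomial V K) = 0 := by
  induction T using Finset.induction_on with
  | empty => simp
  | insert l T hl ih =>
    rw [Finset.prod_insert hl, Derivation.leibniz, ih fun l' hl' => h l' (mem_insert_of_mem hl'),
      pderiv_X_of_ne (h l (mem_insert_self _ _)), smul_zero, smul_zero, add_zero]

theorem pderiv_esy_of_ne (f : J → V) (v : V) (k : ℕ) (U : Finset J) (h : ∀ l ∈ U, f l ≠ v) :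
    pderiv v (esy K f k U) = 0 := by
  unfold esy
  rw [map_sum]
  exact Finset.sum_eq_zero fun T hT =>
    pderiv_prod_X f v T fun l hl => h l ((Finset.mem_powersetCard.1 hT).1 hl)

theorem pderiv_esy {f : J → V} (hf : Function.Injective f) (k : ℕ) {U : Finset J} {l : J}
    (hl : l ∈ U) : pderiv (f l) (esy K f (k + 1) U) = esy K f k (U.erase l) := by
  have h : ∀ l' ∈ U.erase l, f l' ≠ f l := fun l' hl' h => ne_of_mem_erase hl' (hf h)
  rw [esy_succ f k hl, map_add, Derivation.leibniz, pderiv_esy_of_ne f _ _ _ h,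
    pderiv_esy_of_ne f _ _ _ h, pderiv_X_self]
  simp

theorem eval_esy (f : J → V) (k : ℕ) (U : Finset J) (p : V → K) :
    eval p (esy K f k U) = ∑ T ∈ powersetCard k U, ∏ l ∈ T, p (f l) := by
  unfold esy
  rw [map_sum]
  refine Finset.sum_congr rfl fun T _ => ?_
  rw [map_prod]
  simp

end poly

/-! ### the separable polynomial -/

section main

open MvPolynomial

variable (K : Type) [Field K] (d : ℕ) (Z J : Type) [Fintype Z] [Fintype J] [DecidableEq J]

/-- `z` is a nondegenerate critical point of the function `x ↦ x none` on the hypersurface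
`F = 0`. -/
def Crit {K ι : Type} [Field K] [Fintype ι] (F : MvPolynomial (Option ι) K)
    (z : Option ι → K) : Prop :=
  eval z F = 0 ∧ (∀ v : ι, eval z (pderiv (some v) F) = 0) ∧
    eval z (pderiv none F) ≠ 0 ∧
    ∀ w : ι → K, (∀ v, ∑ v', eval z (pderiv (some v') (pderiv (some v) F)) * w v' = 0) → w = 0

/-- `F0 = τ + ∑_z (e_(d+1)(y_z) + (-1)^d ∑_l y_(z,l))` -/
noncomputable def F0 : MvPolynomial (Option (Z × J)) K :=
  X none + ∑ z : Z, (∑ T ∈ powersetCard (d + 1) (univ : Finset J), ∏ l ∈ T, X (some (z, l)) +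
    C ((-1) ^ d) * ∑ l : J, X (some (z, l)))

variable {K d Z J}

theorem some_inj (z : Z) : Function.Injective fun l : J => (some (z, l) : Option (Z × J)) := by
  intro l l' h
  exact (Prod.mk.inj (Option.some.inj h)).2

theorem pderiv_none_F0 : pderiv none (F0 K d Z J) = 1 := by
  unfold F0
  rw [map_add, pderiv_X_self, map_sum, Finset.sum_eq_zero, add_zero]
  intro z _
  rw [map_add, pderiv_C_mul, map_sum (pderiv none), Finset.sum_eq_zero, zero_add, map_sum,
    Finset.sum_eq_zero, mul_zero]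
  · intro l _
    exact pderiv_X_of_ne (by simp)
  · intro T _
    exact pderiv_prod_X (fun l => (some (z, l) : Option (Z × J))) none T (by simp)

theorem pderiv_some_F0 (z : Z) (l : J) : pderiv (some (z, l)) (F0 K d Z J) =
    esy K (fun l : J => (some (z, l) : Option (Z × J))) d (univ.erase l) + C ((-1) ^ d) := by
  classical
  unfold F0
  rw [map_add, pderiv_X_of_ne (by simp), zero_add, map_sum, Finset.sum_eq_single z]
  · rw [map_add, pderiv_C_mul]
    have h1 : pderiv (some (z, l)) (∑ l : J, X (some (z, l)) : MvPolynomial (Option (Z × J)) K)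
        = 1 := by
      rw [map_sum, Finset.sum_eq_single l]
      · exact pderiv_X_self _
      · intro l' _ hl'
        exact pderiv_X_of_ne fun h => hl' (some_inj z h)
      · simp
    rw [h1, mul_one]
    congr 1
    exact pderiv_esy (some_inj z) d (mem_univ l)
  · intro z' _ hz'
    have hne : ∀ l' : J, (some (z', l') : Option (Z × J)) ≠ some (z, l) := by
      intro l' h
      exact hz' (Prod.mk.inj (Option.some.inj h)).1
    rw [map_add, pderiv_C_mul, map_sum (pderiv (some (z, l))), Finset.sum_eq_zero, zero_add,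
      map_sum, Finset.sum_eq_zero, mul_zero]
    · intro l' _
      exact pderiv_X_of_ne (hne l')
    · intro T _
      exact pderiv_prod_X (fun l => (some (z', l) : Option (Z × J))) _ T fun l' _ => hne l'
  · simp

theorem pderiv_pderiv_F0 [DecidableEq Z] (hd : 1 ≤ d) (z z' : Z) (l l' : J) :
    pderiv (some (z', l')) (pderiv (some (z, l)) (F0 K d Z J)) =
      if z' = z ∧ l' ≠ l then
        esy K (fun l : J => (some (z, l) : Option (Z × J))) (d - 1) ((univ.erase l).erase l')
      else 0 := by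
  obtain ⟨k, rfl⟩ : ∃ k, d = k + 1 := ⟨d - 1, by omega⟩
  rw [pderiv_some_F0, map_add, pderiv_C, add_zero, Nat.add_sub_cancel]
  split_ifs with h
  · obtain ⟨rfl, h⟩ := h
    exact pderiv_esy (some_inj z') k (mem_erase.2 ⟨h, mem_univ _⟩)
  · refine pderiv_esy_of_ne _ _ _ _ fun l'' hl'' h' => h ?_
    obtain ⟨h1, h2⟩ := Prod.mk.inj (Option.some.inj h')
    subst h1 h2
    exact ⟨rfl, ne_of_mem_erase hl''⟩

/-- the critical points -/
noncomputable def pt (e : J ≃ JJ d) (ζ : K) (σ : Z → Fin 2 → Equiv.Perm (Fin d)) :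
    Option (Z × J) → K
  | none => -∑ z : Z, (∑ T ∈ powersetCard (d + 1) (univ : Finset J), ∏ l ∈ T, yrow e ζ (σ z) l +
      (-1) ^ d * ∑ l : J, yrow e ζ (σ z) l)
  | some (z, l) => yrow e ζ (σ z) l

theorem crit_pt [DecidableEq Z] (e : J ≃ JJ d) (hd : 2 ≤ d) (hdK : (d : K) ≠ 0) {ζ : K}
    (hζ : IsPrimitiveRoot ζ d) (σ : Z → Fin 2 → Equiv.Perm (Fin d)) :
    Crit (F0 K d Z J) (pt e ζ σ) := by
  refine ⟨?_, ?_, ?_, ?_⟩
  · unfold F0
    rw [map_add, eval_X, map_sum]
    have h1 : ∀ z : Z, eval (pt e ζ σ)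
        (∑ T ∈ powersetCard (d + 1) (univ : Finset J), ∏ l ∈ T, X (some (z, l)) +
          C ((-1) ^ d) * ∑ l : J, X (some (z, l))) =
        ∑ T ∈ powersetCard (d + 1) (univ : Finset J), ∏ l ∈ T, yrow e ζ (σ z) l +
          (-1) ^ d * ∑ l : J, yrow e ζ (σ z) l := by
      intro z
      rw [map_add, map_mul, eval_C, map_sum, map_sum]
      congr 1
      · refine Finset.sum_congr rfl fun T _ => ?_
        rw [map_prod]
        simp only [eval_X]
        rfl
      · simp only [eval_X]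
        rfl
    rw [Finset.sum_congr rfl fun z _ => h1 z]
    exact neg_add_cancel _
  · rintro ⟨z, l⟩
    rw [pderiv_some_F0, map_add, eval_C, eval_esy]
    change ∑ T ∈ powersetCard d (univ.erase l), ∏ l ∈ T, yrow e ζ (σ z) l + _ = 0
    rw [esymm_erase e hd hζ (σ z) l]
    ring
  · rw [pderiv_none_F0, map_one]
    exact one_ne_zero
  · intro w hw
    have h1 : ∀ z l l', l' ≠ l → yrow e ζ (σ z) l' = yrow e ζ (σ z) l →
        (∀ l'' : J, l'' ≠ l → yrow e ζ (σ z) l'' = yrow e ζ (σ z) l → l'' = l') →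
        w (z, l') = 0 := by
      intro z l l' hne heq huniq
      have h2 := hw (z, l)
      rw [Finset.sum_eq_single (z, l')] at h2
      · rw [pderiv_pderiv_F0 (by omega), if_pos ⟨rfl, hne⟩, eval_esy] at h2
        change (∑ T ∈ powersetCard (d - 1) ((univ.erase l).erase l'),
          ∏ l ∈ T, yrow e ζ (σ z) l) * _ = 0 at h2
        rw [esymm_erase_erase_eq e hd hζ (σ z) hne.symm heq.symm] at h2
        refine (mul_eq_zero.1 h2).resolve_left ?_
        exact mul_ne_zero (mul_ne_zero (pow_ne_zero _ (neg_ne_zero.2 one_ne_zero)) hdK)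
          (pow_ne_zero _ (yrow_ne_zero e hζ (σ z) l))
      · rintro ⟨z', l''⟩ _ hne'
        rw [pderiv_pderiv_F0 (by omega)]
        split_ifs with h3
        · obtain ⟨rfl, h3⟩ := h3
          rw [eval_esy]
          change (∑ T ∈ powersetCard (d - 1) ((univ.erase l).erase l''),
            ∏ l ∈ T, yrow e ζ (σ z') l) * _ = 0
          rw [esymm_erase_erase_ne e hd hζ (σ z') h3.symm, zero_mul]
          intro h4
          exact hne' (by rw [huniq l'' h3 h4.symm])
        · rw [map_zero, zero_mul]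
      · simp
    funext v
    obtain ⟨z, l⟩ := v
    obtain ⟨l', h2, h3, h4⟩ := yrow_partner e hζ (σ z) l
    refine h1 z l' l h2.symm h3.symm ?_
    intro l'' h5 h6
    by_contra h7
    exact h5 (h4 l'' h7 (h6.trans h3))

theorem pt_injective (e : J ≃ JJ d) {ζ : K} (hζ : IsPrimitiveRoot ζ d) :
    Function.Injective (fun σ : Z → Fin 2 → Equiv.Perm (Fin d) => pt e ζ σ) := by
  intro σ σ' h
  funext z
  refine yrow_injective e hζ ?_
  funext l
  exact congrFun h (some (z, l))

/-- The separable polynomial `F0` has `(d!)^(2 #blocks)` nondegenerate critical points. -/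
theorem exists_crit0 [DecidableEq Z] (hJ : Fintype.card J = 2 * d) (hd : 2 ≤ d)
    (hdK : (d : K) ≠ 0) {ζ : K} (hζ : IsPrimitiveRoot ζ d) :
    ∃ S : Finset (Option (Z × J) → K), (∀ p ∈ S, Crit (F0 K d Z J) p) ∧
      S.card = (d.factorial) ^ (2 * Fintype.card Z) := by
  classical
  have e : J ≃ JJ d := Fintype.equivOfCardEq (by simp [hJ])
  refine ⟨univ.image fun σ : Z → Fin 2 → Equiv.Perm (Fin d) => pt e ζ σ, ?_, ?_⟩
  · intro p hp
    obtain ⟨σ, _, rfl⟩ := Finset.mem_image.1 hp
    exact crit_pt e hd hdK hζ σ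
  · rw [Finset.card_image_of_injective _ (pt_injective e hζ), card_univ, Fintype.card_fun,
      Fintype.card_fun, Fintype.card_fin, Fintype.card_perm, Fintype.card_fin, ← pow_mul]

end main

end Pool.Agent.Helper40.CB
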